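import Mathlib

namespace Pool.Agent.Results.MP_158c61_gt.Counterexample
open Set Topology Filter

/-- `C_p(X)`: the continuous real functions on `X` with the topology inherited from `ℝ^X`. -/
abbrev Cp (X : Type) [TopologicalSpace X] : Type := {f : X → ℝ // Continuous f}

/-- A continuous image of a Cantor cube. -/
def Dyadic (X : Type) [TopologicalSpace X] : Prop :=
  ∃ (κ : Type) (p : (κ → Bool) → X), Continuous p ∧ Function.Surjective p

/-- Every point has a neighbourhood meeting at most one member of the family. -/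
def DiscreteFamily {Z : Type} [TopologicalSpace Z] (F : Set (Set Z)) : Prop :=
  ∀ z, ∃ V ∈ 𝓝 z, {A ∈ F | (A ∩ V).Nonempty}.Subsingleton

/-- Every open cover has a sigma-discrete closed refinement. -/
def Subparacompact (Z : Type) [TopologicalSpace Z] : Prop :=
  ∀ 𝒰 : Set (Set Z), (∀ U ∈ 𝒰, IsOpen U) → ⋃₀ 𝒰 = univ → ∃ F : ℕ → Set (Set Z),
    (∀ n, DiscreteFamily (F n) ∧ ∀ A ∈ F n, IsClosed A ∧ ∃ U ∈ 𝒰, A ⊆ U) ∧ ⋃ n, ⋃₀ F n = univ

abbrev J : Type := ℕ → Bool
abbrev X : Type := J → Bool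
abbrev Cd : Type := Σ m : ℕ, ((Fin m → Bool) → Bool) × ((Fin m → Bool) → Bool) × ℚ

def lo (c : Cd) : X := fun a => c.2.1 fun i => a i
def hi (c : Cd) : X := fun a => c.2.2.1 fun i => a i

def M (c : Cd) (a : J) : Set (Cp X) := {f | 0 < (c.2.2.2 : ℝ) ∧ 4 * c.2.2.2 ≤ |f.1 (lo c) - f.1 (hi c)| ∧
  ∀ x x' : X, (∀ b, x b ≠ x' b → lo c b ≠ hi c b ∧ b ≠ a) → |f.1 x - f.1 x'| ≤ c.2.2.2}

theorem ev (x : X) : Continuous fun f : Cp X => f.1 x :=
  (continuous_apply x).comp continuous_subtype_val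

theorem M_closed (c : Cd) (a : J) : IsClosed (M c a) := by
  refine isClosed_const.and ((isClosed_le continuous_const ((ev _).sub (ev _)).abs).and ?_)
  simp only [ofPred_forall]
  exact isClosed_iInter fun x => isClosed_iInter fun x' => isClosed_iInter fun _ =>
    isClosed_le ((ev _).sub (ev _)).abs continuous_const

theorem M_disj {c : Cd} {a a' : J} {f : Cp X} (h : f ∈ M c a) (h' : f ∈ M c a') : a = a' := by
  classical
  by_contra hne
  have h1 := h.2.2 (lo c) (Function.update (hi c) a (lo c a)) fun b hb => by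
    by_cases h1 : b = a
    · simp [h1] at hb
    · exact ⟨by rwa [Function.update_of_ne h1] at hb, h1⟩
  have h2 := h'.2.2 (Function.update (hi c) a (lo c a)) (hi c) fun b hb => by
    by_cases h1 : b = a
    · subst h1
      exact ⟨by simpa using hb, hne⟩
    · simp [h1] at hb
  linarith [h.1, h.2.1, abs_sub_le (f.1 (lo c)) (f.1 (Function.update (hi c) a (lo c a))) (f.1 (hi c))]

theorem unif (f : Cp X) {ε : ℝ} (hε : 0 < ε) :
    ∃ A : Finset J, ∀ x x' : X, (∀ b ∈ A, x b = x' b) → |f.1 x - f.1 x'| ≤ ε := by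
  classical
  obtain ⟨t, ht⟩ := (isClosed_le continuous_const
    ((f.2.comp continuous_fst).sub (f.2.comp continuous_snd)).abs :
      IsClosed {z : X × X | ε ≤ |f.1 z.1 - f.1 z.2|}).isCompact.elim_finite_subfamily_closed
    (fun b : J => {z : X × X | z.1 b = z.2 b}) (fun b => isClosed_eq (by fun_prop) (by fun_prop)) (by
      rw [eq_empty_iff_forall_notMem]
      rintro z ⟨h1, h2⟩
      have h3 : z.1 = z.2 := funext (mem_iInter.1 h2)
      simp only [mem_ofPred_eq, h3, sub_self, abs_zero] at h1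
      linarith)
  exact ⟨t, fun x x' h => le_of_not_ge fun h1 =>
    eq_empty_iff_forall_notMem.1 ht (x, x') ⟨h1, mem_iInter₂.2 h⟩⟩

theorem M_nhds (c : Cd) (g : Cp X) :
    ∀ᶠ f in 𝓝 g, ∀ a, f ∈ M c a → g ∈ M c a := by
  classical
  by_cases h0 : 0 < (c.2.2.2 : ℝ) ∧ 4 * c.2.2.2 ≤ |g.1 (lo c) - g.1 (hi c)|
  · obtain ⟨B, hB⟩ := unif g h0.1
    let z : X := fun b => if b ∈ B then hi c b else lo c b
    have h1 := hB z (hi c) fun b hb => if_pos hb
    have h2 : (c.2.2.2 : ℝ) < |g.1 (lo c) - g.1 z| := by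
      linarith [h0.1, h0.2, abs_sub_le (g.1 (lo c)) (g.1 z) (g.1 (hi c))]
    have h3 : ∀ᶠ f in 𝓝 g, ∀ a ∈ B, f ∈ M c a → g ∈ M c a := (eventually_all_finset B).2 fun a _ => by
      by_cases h3 : g ∈ M c a
      · exact Eventually.of_forall fun _ _ => h3
      · filter_upwards [(M_closed c a).isOpen_compl.mem_nhds h3] with f h4 h5
        exact absurd h5 h4
    filter_upwards [h3, (isOpen_lt continuous_const ((ev (lo c)).sub (ev z)).abs).mem_nhds h2]
      with f h4 h5 a ha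
    refine h4 a (by_contra fun h6 => not_le.2 h5 (ha.2.2 _ _ fun b hb => ?_)) ha
    simp only [z] at hb
    split_ifs at hb with h7
    · exact ⟨hb, fun h8 => h6 (h8 ▸ h7)⟩
    · exact absurd rfl hb
  · have h1 : IsClosed {f : Cp X | 0 < (c.2.2.2 : ℝ) ∧ 4 * c.2.2.2 ≤ |f.1 (lo c) - f.1 (hi c)|} :=
      isClosed_const.and (isClosed_le continuous_const ((ev _).sub (ev _)).abs)
    filter_upwards [h1.isOpen_compl.mem_nhds h0] with f h2 a ha
    exact absurd ⟨ha.1, ha.2.1⟩ h2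

open Classical in
theorem M_exists (f : Cp X) (a : J) (x : X) (β : Bool) (h : f.1 x ≠ f.1 (Function.update x a β)) :
    ∃ c, f ∈ M c a := by
  classical
  obtain ⟨q, hq, hq'⟩ := exists_rat_btwn (show 0 < |f.1 x - f.1 (Function.update x a β)| / 6 from
    div_pos (abs_pos.2 (sub_ne_zero.2 h)) (by norm_num))
  obtain ⟨A, hA⟩ := unif f hq
  obtain ⟨m, hm⟩ : ∃ m : ℕ, ∀ b ∈ insert a A, ∀ b' ∈ insert a A,
      (fun i : Fin m => b i) = (fun i : Fin m => b' i) → b = b' := by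
    refine Eventually.exists (f := atTop) ((eventually_all_finset _).2 fun b _ =>
      (eventually_all_finset _).2 fun b' _ => ?_)
    by_cases h1 : b = b'
    · exact Eventually.of_forall fun _ _ => h1
    · obtain ⟨i, hi⟩ := Function.ne_iff.1 h1
      filter_upwards [eventually_gt_atTop i] with m hm h2
      exact absurd (congrFun h2 ⟨i, hm⟩) hi
  have h1 : ∀ s : Fin m → Bool, ∃ v, ∀ b ∈ insert a A, (fun i : Fin m => b i) = s → v = x b := by
    intro s
    by_cases h1 : ∃ b ∈ insert a A, (fun i : Fin m => b i) = s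
    · obtain ⟨b, hb, rfl⟩ := h1
      exact ⟨x b, fun b' hb' h2 => by rw [hm b' hb' b hb h2]⟩
    · exact ⟨false, fun b hb h2 => absurd ⟨b, hb, h2⟩ h1⟩
  choose u hu using h1
  let c : Cd := ⟨m, u, Function.update u (fun i => a i) β, q⟩
  have h2 : ∀ b ∈ A, b ≠ a → lo c b = hi c b := fun b hb h2 => (Function.update_of_ne
    (fun h3 => h2 (hm b (Finset.mem_insert_of_mem hb) a (Finset.mem_insert_self _ _) h3)) _ _).symm
  have h3 : ∀ b ∈ A, lo c b = x b := fun b hb => hu _ b (Finset.mem_insert_of_mem hb) rfl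
  have h4 := hA (lo c) x h3
  have h5 := hA (hi c) (Function.update x a β) fun b hb => by
    by_cases h5 : b = a
    · rw [h5, Function.update_self]
      exact Function.update_self _ _ _
    · rw [Function.update_of_ne h5, ← h2 b hb h5, h3 b hb]
  refine ⟨c, hq, ?_, fun y y' hy => hA y y' fun b hb => by_contra fun h6 =>
    (hy b h6).1 (h2 b hb (hy b h6).2)⟩
  show 4 * (q : ℝ) ≤ _
  rw [abs_le] at h4 h5
  rcases abs_cases (f.1 x - f.1 (Function.update x a β)) with h6 | h6 <;>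
    rcases abs_cases (f.1 (lo c) - f.1 (hi c)) with h7 | h7 <;> linarith

abbrev T : Type := Σ n : ℕ, (Fin n → Cd) × ((Fin n → Bool) → ℚ) × ℚ

def N (t : T) (a : Fin t.1 → J) : Set (Cp X) :=
  {f | (∀ i, f ∈ M (t.2.1 i) (a i)) ∧ ∀ x : X, |f.1 x - t.2.2.1 fun i => x (a i)| ≤ t.2.2.2}

theorem N_closed (t : T) (a : Fin t.1 → J) : IsClosed (N t a) := by
  refine IsClosed.and ?_ ?_ <;> rw [ofPred_forall]
  · exact isClosed_iInter fun i => M_closed _ _
  · exact isClosed_iInter fun x => isClosed_le ((ev _).sub continuous_const).abs continuous_const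

theorem N_net (f : Cp X) (U : Set (Cp X)) (hU : IsOpen U) (hf : f ∈ U) :
    ∃ t a, f ∈ N t a ∧ N t a ⊆ U := by
  classical
  obtain ⟨r, hr, hr'⟩ : ∃ r > 0, ∀ g : Cp X, (∀ x, |g.1 x - f.1 x| < r) → g ∈ U := by
    have h1 : Continuous fun g : C(X, ℝ) => (⟨g, g.continuous⟩ : Cp X) :=
      Continuous.subtype_mk (continuous_pi fun x => by fun_prop) _
    obtain ⟨r, hr, h2⟩ := Metric.isOpen_iff.1 (hU.preimage h1) ⟨f.1, f.2⟩ hf
    exact ⟨r, hr, fun g hg => h2 (a := ⟨g.1, g.2⟩) ((ContinuousMap.dist_lt_iff hr).2 hg)⟩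
  obtain ⟨q, hq, hq'⟩ := exists_rat_btwn (show 0 < r / 2 by positivity)
  obtain ⟨A, hA⟩ := exists_minimal_of_wellFoundedLT _ (unif f (show 0 < (q : ℝ) / 2 by positivity))
  have h1 : ∀ a : A, ∃ c, f ∈ M c a := by
    rintro ⟨a, ha⟩
    have h1 : ¬ ∀ x x' : X, (∀ b ∈ A.erase a, x b = x' b) → |f.1 x - f.1 x'| ≤ q / 2 :=
      fun h1 => Finset.notMem_erase a A (hA.2 h1 (Finset.erase_subset a A) ha)
    push Not at h1
    obtain ⟨x, x', h1, h2⟩ := h1
    refine M_exists f a x (x' a) fun h3 => not_le.2 h2 (h3 ▸ hA.1 _ _ fun b hb => ?_)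
    by_cases h4 : b = a
    · rw [h4, Function.update_self]
    · rw [Function.update_of_ne h4, h1 b (Finset.mem_erase.2 ⟨h4, hb⟩)]
  choose c hc using h1
  have h2 : ∀ s : Fin A.card → Bool, ∃ v : ℚ, ∀ x : X, (fun i => x (A.equivFin.symm i)) = s →
      |f.1 x - v| ≤ q := by
    intro s
    obtain ⟨v, hv⟩ := exists_rat_near (f.1 fun b => if h : b ∈ A then s (A.equivFin ⟨b, h⟩) else false)
      (show 0 < (q : ℝ) / 2 by positivity)
    refine ⟨v, fun x hx => ?_⟩
    have h2 := hA.1 x (fun b => if h : b ∈ A then s (A.equivFin ⟨b, h⟩) else false) fun b hb => by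
      simp [← hx, hb]
    linarith [abs_sub_le (f.1 x) (f.1 fun b => if h : b ∈ A then s (A.equivFin ⟨b, h⟩) else false) v]
  choose v hv using h2
  refine ⟨⟨A.card, fun i => c (A.equivFin.symm i), v, q⟩, fun i => A.equivFin.symm i,
    ⟨fun i => hc _, fun x => hv _ x rfl⟩, fun g hg => hr' g fun x => ?_⟩
  have h3 := abs_le.1 (hg.2 x)
  have h4 := abs_le.1 (hv _ x rfl)
  simp only at h3
  rw [abs_lt]
  constructor <;> linarith [h3.1, h3.2, h4.1, h4.2]

theorem main {Z : Type} [TopologicalSpace Z] (j : Z → Cp X) (hj : IsInducing j) :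
    Subparacompact Z := by
  intro 𝒰 h1 h2
  obtain ⟨t, ht⟩ := exists_surjective_nat T
  refine ⟨fun n => {A | (∃ a, A = j ⁻¹' N (t n) a) ∧ ∃ U ∈ 𝒰, A ⊆ U}, fun n => ⟨fun z => ?_, ?_⟩, ?_⟩
  · refine ⟨_, hj.continuous.tendsto z (eventually_all.2 fun i => M_nhds ((t n).2.1 i) (j z)), ?_⟩
    rintro _ ⟨⟨⟨a, rfl⟩, -⟩, y, h3, h4⟩ _ ⟨⟨⟨a', rfl⟩, -⟩, y', h5, h6⟩
    rw [show a = a' from funext fun i => M_disj (h4 i _ (h3.1 i)) (h6 i _ (h5.1 i))]
  · rintro _ ⟨⟨a, rfl⟩, h3⟩
    exact ⟨(N_closed _ _).preimage hj.continuous, h3⟩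
  · refine eq_univ_of_forall fun z => ?_
    obtain ⟨U, h3, h4⟩ := eq_univ_iff_forall.1 h2 z
    obtain ⟨V, h5, rfl⟩ := hj.isOpen_iff.1 (h1 U h3)
    obtain ⟨s, a, h6, h7⟩ := N_net (j z) V h5 h4
    obtain ⟨n, rfl⟩ := ht s
    exact mem_iUnion.2 ⟨n, _, ⟨⟨a, rfl⟩, _, h3, preimage_mono h7⟩, h6⟩

/-- There is a non-metrizable dyadic compact space `X` such that `C_p(X)` and all its subspaces are
subparacompact. -/
theorem result : ∃ (Y : Type) (_ : TopologicalSpace Y), CompactSpace Y ∧ T2Space Y ∧ Dyadic Y ∧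
    ¬ TopologicalSpace.MetrizableSpace Y ∧ Subparacompact (Cp Y) ∧
      ∀ S : Set (Cp Y), Subparacompact S := by
  refine ⟨X, inferInstance, inferInstance, inferInstance, ⟨J, id, continuous_id, fun x => ⟨x, rfl⟩⟩,
    fun h => ?_, main id IsInducing.id, fun S => main _ IsInducing.subtypeVal⟩
  classical
  obtain ⟨U, hU⟩ := (𝓝 (fun _ => false : X)).exists_antitone_basis
  have h1 : ∀ n, ∃ B : Finset J, ∀ x : X, (∀ b ∈ B, x b = false) → x ∈ U n := by
    intro n
    have h1 := hU.1.mem_of_mem (i := n) trivial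
    rw [nhds_pi] at h1
    obtain ⟨B, h2, v, h3, h4⟩ := mem_pi.1 h1
    exact ⟨h2.toFinset, fun x hx => h4 fun b hb => by
      rw [hx b (h2.mem_toFinset.2 hb)]; exact mem_of_mem_nhds (h3 b)⟩
  choose B hB using h1
  have h2 : (univ : Set J).Countable := (countable_iUnion fun n => (B n).countable_toSet).mono
    fun a _ => by
      obtain ⟨n, -, h2⟩ := hU.1.mem_iff.1 (((isOpen_discrete {false}).preimage
        (continuous_apply a : Continuous fun x : X => x a)).mem_nhds rfl)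
      refine mem_iUnion.2 ⟨n, by_contra fun h3 => ?_⟩
      have := h2 (hB n (fun b => decide (b = a)) fun b hb => decide_eq_false fun h4 => h3 (h4 ▸ hb))
      simp at this
  have h3 := Cardinal.mk_le_aleph0_iff.2 (countable_univ_iff.1 h2)
  simp at h3
  exact not_lt.2 h3 Cardinal.aleph0_lt_continuum

end Pool.Agent.Results.MP_158c61_gt.Counterexample
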